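import Mathlib

set_option autoImplicit false

/-! # Cyclic sorting by adjacent-value swaps: the permutation `π₀` is not extremal for `n = 18` -/

namespace Pool.Agent.Results.MP_fb91b8_co.SortEighteen

open Equiv

/-- `γ` is an `n`-cycle: all points lie on one cycle of `γ`. -/
def IsFullCycle {n : ℕ} (γ : Perm (Fin n)) : Prop := ∀ x y : Fin n, γ.SameCycle x y

/-- The set `C_n` of `n`-cycles (of the points `0, …, n-1`). -/
abbrev Cyc (n : ℕ) : Type := {γ : Perm (Fin n) // IsFullCycle γ}

/-- The adjacent transposition exchanging `i` and `i + 1`. -/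
def adjSwap {n : ℕ} (i : ℕ) (h : i + 1 < n) : Perm (Fin n) :=
  swap ⟨i, Nat.lt_of_succ_lt h⟩ ⟨i + 1, h⟩

lemma adjSwap_mul_self {n : ℕ} (i : ℕ) (h : i + 1 < n) :
    adjSwap i h * adjSwap i h = (1 : Perm (Fin n)) := swap_mul_self _ _

lemma adjSwap_conj {n : ℕ} (i : ℕ) (h : i + 1 < n) {x y : Perm (Fin n)}
    (e : y = adjSwap i h * x * adjSwap i h) : x = adjSwap i h * y * adjSwap i h := by
  rw [e]
  have h1 := adjSwap_mul_self i h
  calc x = (adjSwap i h * adjSwap i h) * x * (adjSwap i h * adjSwap i h) := by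
        rw [h1, one_mul, mul_one]
    _ = _ := by simp only [mul_assoc]

/-- The graph `Γ_n`: `γ ≠ γ'` are adjacent iff `γ' = s γ s` for some adjacent transposition
`s = (i, i+1)`. -/
def Gam (n : ℕ) : SimpleGraph (Cyc n) where
  Adj γ γ' := γ ≠ γ' ∧ ∃ (i : ℕ) (h : i + 1 < n), γ'.1 = adjSwap i h * γ.1 * adjSwap i h
  symm := ⟨fun _ _ ⟨hne, i, h, e⟩ => ⟨hne.symm, i, h, adjSwap_conj i h e⟩⟩
  loopless := ⟨fun _ h => h.1 rfl⟩

lemma ofNat_succ' (m k : ℕ) : Fin.ofNat (m + 1) (k + 1) = Fin.ofNat (m + 1) k + 1 := by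
  apply Fin.ext
  simp [Fin.val_add, Fin.ofNat]

lemma ofNat_val' (m : ℕ) (x : Fin (m + 1)) : Fin.ofNat (m + 1) x.val = x :=
  Fin.ext (Nat.mod_eq_of_lt x.2)

lemma finRotate_pow_apply (m : ℕ) (k : ℕ) (x : Fin (m + 1)) :
    ((finRotate (m + 1)) ^ k) x = x + Fin.ofNat (m + 1) k := by
  induction k with
  | zero => simp
  | succ k ih =>
    rw [pow_succ', Perm.mul_apply, ih, finRotate_apply, ofNat_succ', add_assoc]

lemma isFullCycle_finRotate (n : ℕ) : IsFullCycle (finRotate n) := by
  cases n with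
  | zero => intro x; exact x.elim0
  | succ m =>
    intro x y
    refine ⟨((y - x).val : ℕ), ?_⟩
    rw [zpow_natCast, finRotate_pow_apply, ofNat_val']
    abel

/-- The cycle `c_n = (1, 2, …, n)` (on the points `0, …, n-1`: `i ↦ i + 1`). -/
def cn (n : ℕ) : Cyc n := ⟨finRotate n, isFullCycle_finRotate n⟩

/-- `Sort_n`, the largest distance in `Γ_n` from `c_n`. -/
noncomputable def SortNum (n : ℕ) : ℕ := ⨆ γ : Cyc n, (Gam n).dist (cn n) γ

/-- The number of inversions of a word. -/
def invList (l : List ℕ) : ℕ :=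
  (Finset.univ.filter (fun p : Fin l.length × Fin l.length => p.1 < p.2 ∧ l[p.2] < l[p.1])).card

/-- A word of length `n` is admissible when, for every `k`, the sum of its first `k` letters is at
most `k(n+1)/2`. -/
def admissible (n : ℕ) (l : List ℕ) : Bool :=
  (List.range (n + 1)).all fun k => decide (2 * (l.take k).sum ≤ k * (n + 1))

/-- `slideAux n v pre post`: the letter `v` of the word `pre.reverse ++ v :: post` is moved to the
left, step by step, as long as its left neighbour is smaller and the word stays admissible. -/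
def slideAux (n v : ℕ) : List ℕ → List ℕ → List ℕ
  | [], post => v :: post
  | x :: pre, post =>
    if x < v ∧ admissible n (pre.reverse ++ v :: x :: post) then slideAux n v pre (x :: post)
    else (x :: pre).reverse ++ v :: post

/-- Move the letter `v` of the word `l` to the left as far as possible while keeping the word
admissible, never moving it past a larger letter. -/
def slide (n : ℕ) (l : List ℕ) (v : ℕ) : List ℕ :=
  slideAux n v (l.takeWhile (· ≠ v)).reverse (l.dropWhile (· ≠ v)).tail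

/-- The starting word `[n-m, …, 1, n, …, n-m+1]` with `m = ⌊n/2⌋`. -/
def startWord (n : ℕ) : List ℕ :=
  (List.range' 1 (n - n / 2)).reverse ++ (List.range' (n - n / 2 + 1) (n / 2)).reverse

/-- The permutation `π₀` in one-line notation: starting from `startWord n`, the values
`n, n-1, …, n-m+1` are moved to the left, in this order, by `slide`. -/
def pi0 (n : ℕ) : List ℕ :=
  ((List.range (n / 2)).map (fun t => n - t)).foldl (slide n) (startWord n)

/-- The example of the problem statement. -/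
lemma pi0_twelve : pi0 12 = [6, 5, 4, 3, 12, 2, 11, 1, 10, 9, 8, 7] := by decide +kernel

lemma invList_pi0 : invList (pi0 18) = 82 := by decide +kernel

/-! ### Lower bound for distances -/

/-- The number of inversions of a permutation. -/
def inv {n : ℕ} (v : Perm (Fin n)) : ℕ :=
  (Finset.univ.filter (fun p : Fin n × Fin n => p.1 < p.2 ∧ v p.2 < v p.1)).card

lemma inv_one (n : ℕ) : inv (1 : Perm (Fin n)) = 0 := by
  unfold inv
  rw [Finset.card_eq_zero, Finset.filter_eq_empty_iff]
  rintro ⟨x, y⟩ _ ⟨h1, h2⟩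
  simp only [Perm.coe_one, id] at h1 h2
  exact absurd h1 (lt_asymm h2)

lemma inv_swap_mul {n : ℕ} (v : Perm (Fin n)) (i : ℕ) (h : i + 1 < n) :
    inv (adjSwap i h * v) ≤ inv v + 1 := by
  classical
  unfold inv adjSwap
  set a : Fin n := ⟨i, Nat.lt_of_succ_lt h⟩ with ha
  set b : Fin n := ⟨i + 1, h⟩ with hb
  have hsub : (Finset.univ.filter (fun p : Fin n × Fin n =>
      p.1 < p.2 ∧ (swap a b * v) p.2 < (swap a b * v) p.1)) ⊆
      insert (v.symm a, v.symm b) (Finset.univ.filter
        (fun p : Fin n × Fin n => p.1 < p.2 ∧ v p.2 < v p.1)) := by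
    intro p hp
    obtain ⟨x, y⟩ := p
    rw [Finset.mem_filter] at hp
    rw [Finset.mem_insert, Finset.mem_filter]
    obtain ⟨-, hxy, hlt⟩ := hp
    simp only [Finset.mem_univ, true_and, Perm.mul_apply, Prod.mk.injEq] at hxy hlt ⊢
    by_cases hv : v y < v x
    · exact Or.inr ⟨hxy, hv⟩
    · left
      have hne : v x ≠ v y := fun e => (ne_of_lt hxy) (v.injective e)
      have hvlt : v x < v y := lt_of_le_of_ne (not_lt.mp hv) hne
      -- the swap reverses the order of `v x < v y`: they must be `a`, `b`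
      have key : v x = a ∧ v y = b := by
        rw [Equiv.swap_apply_def, Equiv.swap_apply_def] at hlt
        simp only [Fin.lt_def, Fin.ext_iff, ha, hb] at *
        split_ifs at hlt <;> simp_all <;> omega
      exact ⟨by rw [← key.1, symm_apply_apply], by rw [← key.2, symm_apply_apply]⟩
  exact (Finset.card_le_card hsub).trans (Finset.card_insert_le _ _)

lemma exists_conj_of_walk {n : ℕ} {γ : Cyc n} (p : (Gam n).Walk γ (cn n)) :
    ∃ v : Perm (Fin n), γ.1 = v * (cn n).1 * v⁻¹ ∧ inv v ≤ p.length := by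
  generalize hd : cn n = δ at p
  induction p with
  | nil => exact ⟨1, by simp, by rw [inv_one]; exact Nat.zero_le _⟩
  | @cons γ γ' δ hadj p ih =>
    obtain ⟨v, hv, hl⟩ := ih hd
    have hadj' := hadj
    obtain ⟨-, i, h, e⟩ := hadj'
    refine ⟨adjSwap i h * v, ?_, ?_⟩
    · have hinv : (adjSwap i h : Perm (Fin n))⁻¹ = adjSwap i h := swap_inv _ _
      rw [adjSwap_conj i h e, hv, mul_inv_rev, hinv]
      simp only [mul_assoc]
    · rw [SimpleGraph.Walk.length_cons]
      exact (inv_swap_mul v i h).trans (by omega)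

lemma commute_finRotate {m : ℕ} (u : Perm (Fin (m + 1)))
    (h : u * finRotate (m + 1) = finRotate (m + 1) * u) (x : Fin (m + 1)) : u x = x + u 0 := by
  have key : ∀ k : ℕ, u (Fin.ofNat (m + 1) k) = Fin.ofNat (m + 1) k + u 0 := by
    intro k
    induction k with
    | zero => simp
    | succ k ih =>
      have := congrArg (fun f : Perm (Fin (m + 1)) => f (Fin.ofNat (m + 1) k)) h
      simp only [Perm.mul_apply, finRotate_apply] at this
      rw [ofNat_succ', this, ih]
      abel
  have := key x.val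
  rwa [ofNat_val'] at this

/-- The extremal permutation for `n = 18` (values `0, …, 17`). -/
def w0 : Fin 18 → Fin 18 := ![4, 3, 16, 2, 15, 1, 14, 13, 0, 12, 11, 10, 9, 8, 7, 6, 5, 17]

/-- Its inverse. -/
def w0inv : Fin 18 → Fin 18 := ![8, 5, 3, 1, 0, 16, 15, 14, 13, 12, 11, 10, 9, 7, 6, 4, 2, 17]

def w : Perm (Fin 18) := ⟨w0, w0inv, by decide, by decide⟩

lemma rotations : ∀ i : Fin 18, 83 ≤ (Finset.univ.filter (fun p : Fin 18 × Fin 18 =>
    p.1 < p.2 ∧ w0 (p.2 + i) < w0 (p.1 + i))).card := by decide +kernel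

lemma conj_full {n : ℕ} (γ : Cyc n) (v : Perm (Fin n)) : IsFullCycle (v * γ.1 * v⁻¹) := by
  intro x y
  have := γ.2 (v⁻¹ x) (v⁻¹ y)
  exact Perm.sameCycle_conj.mpr this

lemma reach_conj {n : ℕ} (v : Perm (Fin n)) :
    ∀ γ : Cyc n, (Gam n).Reachable γ ⟨v * γ.1 * v⁻¹, conj_full γ v⟩ := by
  classical
  cases n with
  | zero =>
    intro γ
    have : γ = ⟨v * γ.1 * v⁻¹, conj_full γ v⟩ := Subsingleton.elim _ _
    rw [← this]
  | succ m =>
    have hv : v ∈ Submonoid.closure (Set.range fun i : Fin m => swap i.castSucc i.succ) := by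
      rw [Perm.mclosure_swap_castSucc_succ]; exact Submonoid.mem_top v
    induction hv using Submonoid.closure_induction with
    | mem x hx =>
      intro γ
      obtain ⟨i, rfl⟩ := hx
      by_cases he : γ = ⟨swap i.castSucc i.succ * γ.1 * (swap i.castSucc i.succ)⁻¹,
          conj_full γ _⟩
      · rw [← he]
      · apply SimpleGraph.Adj.reachable
        refine ⟨he, i.val, by omega, ?_⟩
        simp only [swap_inv]
        rfl
    | one =>
      intro γ
      have : (⟨1 * γ.1 * 1⁻¹, conj_full γ 1⟩ : Cyc (m + 1)) = γ := Subtype.ext (by simp)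
      rw [this]
    | mul x y _ _ hx hy =>
      intro γ
      have e : (⟨x * y * γ.1 * (x * y)⁻¹, conj_full γ (x * y)⟩ : Cyc (m + 1)) =
          ⟨x * (⟨y * γ.1 * y⁻¹, conj_full γ y⟩ : Cyc (m + 1)).1 * x⁻¹, conj_full _ x⟩ :=
        Subtype.ext (by simp [mul_assoc])
      rw [e]
      exact (hy γ).trans (hx _)

/-- The extremal `18`-cycle. -/
def g18 : Cyc 18 := ⟨w * (cn 18).1 * w⁻¹, conj_full (cn 18) w⟩

lemma dist_g18 : 83 ≤ (Gam 18).dist (cn 18) g18 := by
  have hr : (Gam 18).Reachable g18 (cn 18) := (reach_conj w (cn 18)).symm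
  rw [SimpleGraph.dist_comm]
  obtain ⟨p, hp⟩ := hr.exists_walk_length_eq_dist
  rw [← hp]
  obtain ⟨v, hv, hl⟩ := exists_conj_of_walk p
  refine le_trans ?_ hl
  -- `w⁻¹ v` commutes with the rotation
  have hcomm : (w⁻¹ * v) * finRotate 18 = finRotate 18 * (w⁻¹ * v) := by
    have h1 : w * finRotate 18 * w⁻¹ = v * finRotate 18 * v⁻¹ := hv
    calc w⁻¹ * v * finRotate 18 = w⁻¹ * (v * finRotate 18 * v⁻¹) * v := by group
      _ = w⁻¹ * (w * finRotate 18 * w⁻¹) * v := by rw [h1]
      _ = finRotate 18 * (w⁻¹ * v) := by group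
  have hval : ∀ x : Fin 18, v x = w0 (x + (w⁻¹ * v) 0) := by
    intro x
    have h1 := commute_finRotate (m := 17) (w⁻¹ * v) hcomm x
    rw [Perm.mul_apply] at h1
    have h2 : v x = w (w⁻¹ (v x)) := by simp
    rw [h2, h1]
    rfl
  have := rotations ((w⁻¹ * v) 0)
  unfold inv
  simp only [hval]
  exact this

lemma sort_lower : 83 ≤ SortNum 18 :=
  dist_g18.trans (le_ciSup (Set.finite_range _).bddAbove g18)

/-- For `n = 18` one has `Sort_n ≥ 83 > 82 = inv(π₀)`; so the equality `Sort_n = inv(π₀)` does not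
hold for all `n ≥ 1`. -/
theorem result : (invList (pi0 18) = 82 ∧ 83 ≤ SortNum 18) ∧
    ¬ ∀ n : ℕ, 1 ≤ n → SortNum n = invList (pi0 n) := by
  refine ⟨⟨invList_pi0, sort_lower⟩, fun h => ?_⟩
  have h1 := h 18 (by norm_num)
  have h2 := sort_lower
  rw [h1, invList_pi0] at h2
  omega

end Pool.Agent.Results.MP_fb91b8_co.SortEighteen
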